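import Pool.Agent.H37.CPX.Targets

/-! Row CAN of the board `cpx_modules`. -/

set_option autoImplicit false

namespace Pool.Agent.H67.CPX

open Finset Pool.Agent.H37.CPX

theorem pf_CAN : S_CAN := by
  classical
  intro N m k w0 s z j0 hj0
  unfold Sy.D
  have h1 : ∑ J ∈ univ.filter (fun J : Finset (Fin m) => J.card ≤ w0), ∏ j ∈ J, s.v j z =
      ∑ J ∈ univ.filter (fun J : Finset (Fin m) => J.card ≤ w0 ∧ j0 ∈ J), ∏ j ∈ J, s.v j z +
      ∑ J ∈ univ.filter (fun J : Finset (Fin m) => J.card ≤ w0 ∧ j0 ∉ J), ∏ j ∈ J, s.v j z := by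
    rw [← sum_filter_add_sum_filter_not (univ.filter (fun J : Finset (Fin m) => J.card ≤ w0))
      (fun J => j0 ∈ J), filter_filter, filter_filter]
  have h2 : ∑ J ∈ univ.filter (fun J : Finset (Fin m) => J.card ≤ w0 ∧ j0 ∈ J),
      ∏ j ∈ J, s.v j z =
      ∑ J ∈ univ.filter (fun J : Finset (Fin m) => J.card + 1 ≤ w0 ∧ j0 ∉ J),
        -∏ j ∈ J, s.v j z := by
    refine sum_nbij' (fun J => J.erase j0) (fun J => insert j0 J) ?_ ?_ ?_ ?_ ?_
    · intro J hJ
      rw [mem_filter] at hJ ⊢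
      have := card_erase_add_one hJ.2.2
      exact ⟨mem_univ _, by omega, notMem_erase _ _⟩
    · intro J hJ
      rw [mem_filter] at hJ ⊢
      rw [card_insert_of_notMem hJ.2.2]
      exact ⟨mem_univ _, hJ.2.1, mem_insert_self _ _⟩
    · intro J hJ
      rw [mem_filter] at hJ
      exact insert_erase hJ.2.2
    · intro J hJ
      rw [mem_filter] at hJ
      exact erase_insert hJ.2.2
    · intro J hJ
      rw [mem_filter] at hJ
      rw [← mul_prod_erase J (fun j => s.v j z) hJ.2.2, hj0]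
      ring
  have h3 : ∑ J ∈ univ.filter (fun J : Finset (Fin m) => J.card ≤ w0 ∧ j0 ∉ J), ∏ j ∈ J, s.v j z =
      ∑ J ∈ univ.filter (fun J : Finset (Fin m) => J.card = w0 ∧ j0 ∉ J), ∏ j ∈ J, s.v j z +
      ∑ J ∈ univ.filter (fun J : Finset (Fin m) => J.card + 1 ≤ w0 ∧ j0 ∉ J),
        ∏ j ∈ J, s.v j z := by
    rw [← sum_filter_add_sum_filter_not (univ.filter (fun J : Finset (Fin m) =>
      J.card ≤ w0 ∧ j0 ∉ J)) (fun J => J.card = w0), filter_filter, filter_filter]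
    congr 1
    · apply sum_congr _ fun _ _ => rfl
      ext J
      simp only [mem_filter, mem_univ, true_and]
      constructor
      · rintro ⟨⟨_, h⟩, h'⟩; exact ⟨h', h⟩
      · rintro ⟨h, h'⟩; exact ⟨⟨h.le, h'⟩, h⟩
    · apply sum_congr _ fun _ _ => rfl
      ext J
      simp only [mem_filter, mem_univ, true_and]
      constructor
      · rintro ⟨⟨h1, h⟩, h'⟩; exact ⟨by omega, h⟩
      · rintro ⟨h, h'⟩; exact ⟨⟨by omega, h'⟩, by omega⟩
  rw [h1, h2, h3, sum_neg_distrib]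
  ring

end Pool.Agent.H67.CPX
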