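import Pool.Agent.H37.CPX.Targets

/-! Row POS of the board `cpx_modules`. -/

set_option autoImplicit false

namespace Pool.Agent.H67.CPX

open Finset Pool.Agent.H37.CPX

theorem chi_split {N : ℕ} (U T : Finset (Fin N)) (z : Fin N → ZMod 2) :
    chi U z = chi (U ∩ T) z * chi (U \ T) z := by
  classical
  unfold chi
  exact (prod_inter_mul_prod_sdiff U T _).symm

theorem abs_prod_sgn (hV : S_VPR) {ι : Type} (U : Finset ι) (f : ι → ZMod 2) :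
    |∏ i ∈ U, sgn (f i)| = 1 := by
  rw [abs_prod]
  refine prod_eq_one fun i _ => ?_
  rcases hV.2.1 (f i) with h | h <;> rw [h] <;> norm_num

theorem sum_sets (m : ℕ) :
    ∑ U ∈ univ.filter (fun U : Finset (Fin m) => U.Nonempty), (1 / (4 * (m : ℝ))) ^ U.card ≤
      1 / 2 := by
  classical
  obtain ⟨t, ht⟩ : ∃ t : ℝ, t = 1 / (4 * (m : ℝ)) := ⟨_, rfl⟩
  rw [← ht]
  have ht0 : 0 ≤ t := by rw [ht]; positivity
  have hmt : (m : ℝ) * t ≤ 1 / 4 := by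
    rcases Nat.eq_zero_or_pos m with h | h
    · rw [h]; norm_num
    · have hm : (0 : ℝ) < (m : ℝ) := by exact_mod_cast h
      rw [ht]
      apply le_of_eq
      field_simp
  have h1 : ∑ U : Finset (Fin m), t ^ U.card = (t + 1) ^ m := by
    have h := Fintype.sum_pow_mul_eq_add_pow (Fin m) t 1
    simpa using h
  have h2 : ∑ U ∈ univ.filter (fun U : Finset (Fin m) => ¬ U.Nonempty), t ^ U.card = 1 := by
    have e : univ.filter (fun U : Finset (Fin m) => ¬ U.Nonempty) = {∅} := by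
      ext U
      simp [not_nonempty_iff_eq_empty]
    rw [e, sum_singleton, card_empty, pow_zero]
  have h3 := sum_filter_add_sum_filter_not univ (fun U : Finset (Fin m) => U.Nonempty)
    (fun U => t ^ U.card)
  rw [h1, h2] at h3
  have h4 : (t + 1) ^ m ≤ Real.exp (1 / 4) := by
    calc (t + 1) ^ m ≤ (Real.exp t) ^ m := pow_le_pow_left₀ (by linarith) (Real.add_one_le_exp t) m
      _ = Real.exp (m * t) := by rw [← Real.exp_nat_mul]
      _ ≤ Real.exp (1 / 4) := Real.exp_le_exp.2 hmt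
  have h5 : Real.exp (1 / 4) ≤ 3 / 2 := by
    by_contra hcon
    push Not at hcon
    have h6 : (3 / 2 : ℝ) ^ 4 < (Real.exp (1 / 4)) ^ 4 := by
      exact pow_lt_pow_left₀ hcon (by norm_num) (by norm_num)
    have h7 : (Real.exp (1 / 4)) ^ 4 = Real.exp 1 := by
      rw [← Real.exp_nat_mul]
      norm_num
    rw [h7] at h6
    have h8 := Real.exp_one_lt_d9
    norm_num at h6
    linarith
  linarith

theorem est (hB : S_BIA) (hV : S_VPR) (hPJ : S_PJN) {N m k w0 P : ℕ} (s : Sy N m k w0)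
    (T : Finset (Fin N)) (J : Finset (Fin m))
    (X' : Finset (PX N (P ^ 16))) (Y' : Finset (PY N (P ^ 16))) (hk : 1 ≤ k) (hP : 16 ≤ P)
    (hPe : Even P) (hm : 16 * m ^ 2 * 64 ^ k ≤ (P ^ 2) ^ k)
    (hbox : Box s P T J 4 (2 ^ (P ^ 8 + 1)) X' Y') (hX : X'.Nonempty) (hY : Y'.Nonempty)
    (J1 : Finset (Fin m)) (h1 : J1.Nonempty) (h2 : J1.card ≤ w0) (h3 : Disjoint J1 J) :
    |∑ x ∈ X', ∑ y ∈ Y', ∏ j ∈ J1, s.v j (pt x y)| ≤
      (1 / (4 * (m : ℝ))) ^ J1.card * ((X'.card : ℝ) * Y'.card) := by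
  classical
  obtain ⟨x0, hx0⟩ := hX
  obtain ⟨y0, hy0⟩ := hY
  obtain ⟨U, hU⟩ : ∃ U, U = s.P J1 \ T := ⟨_, rfl⟩
  obtain ⟨V, hVV⟩ : ∃ V : ℝ, V = (X'.card : ℝ) * Y'.card := ⟨_, rfl⟩
  have hV0 : 0 ≤ V := by rw [hVV]; positivity
  have ha : 1 ≤ J1.card := card_pos.2 h1
  have hm1 : 1 ≤ m := by
    obtain ⟨j, _⟩ := h1
    have := j.2
    omega
  have hm' : (1 : ℝ) ≤ (m : ℝ) := by exact_mod_cast hm1
  -- the size of `U`
  have hUk : k * J1.card ≤ U.card := by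
    have h4 := hbox.clo J1 h1 h3 h2
    have h5 := (hPJ N m k w0 s J1 T).2
    rw [← hU] at h5
    have e1 : (k + 3) * J1.card = k * J1.card + 3 * J1.card := by ring
    have e2 : (k + 6) * J1.card = k * J1.card + 6 * J1.card := by ring
    omega
  have hUne : U.Nonempty := by
    rw [← card_pos]
    have : 1 * 1 ≤ k * J1.card := Nat.mul_le_mul hk ha
    omega
  have hUT : Disjoint U T := by rw [hU]; exact sdiff_disjoint
  -- the sum
  obtain ⟨S, hS⟩ : ∃ S : ℝ, S = ∑ x ∈ X', ∑ y ∈ Y', chi U (pt x y) := ⟨_, rfl⟩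
  have hbia : S ^ 2 * ((P : ℝ) ^ 2) ^ U.card ≤ 64 ^ U.card * V ^ 2 := by
    rw [hS, hVV]
    exact hB N P T U X' Y' hPe (by omega) hUne hUT hbox.spX hbox.spY
  have habs : |∑ x ∈ X', ∑ y ∈ Y', ∏ j ∈ J1, s.v j (pt x y)| = |S| := by
    have h4 : ∑ x ∈ X', ∑ y ∈ Y', ∏ j ∈ J1, s.v j (pt x y) =
        (∏ j ∈ J1, sgn (s.b j)) * (chi (s.P J1 ∩ T) (pt x0 y0)) * S := by
      rw [hS, mul_sum]
      refine sum_congr rfl fun x hx => ?_
      rw [mul_sum]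
      refine sum_congr rfl fun y hy => ?_
      rw [hV.2.2 N m k w0 s J1 (pt x y), chi_split (s.P J1) T (pt x y), ← hU, mul_assoc]
      have h5 : chi (s.P J1 ∩ T) (pt x y) = chi (s.P J1 ∩ T) (pt x0 y0) := by
        unfold chi
        refine prod_congr rfl fun i hi => ?_
        have hiT : i ∈ T := (mem_inter.1 hi).2
        have e1 := hbox.flX x hx x0 hx0 i hiT
        have e2 := hbox.flY y hy y0 hy0 i hiT
        show sgn (y i (x i)) = sgn (y0 i (x0 i))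
        rw [e1, e2]
      rw [h5]
    rw [h4, abs_mul, abs_mul, abs_prod_sgn hV]
    have h6 : |chi (s.P J1 ∩ T) (pt x0 y0)| = 1 := abs_prod_sgn hV _ _
    rw [h6, one_mul, one_mul]
  rw [habs, ← hVV]
  -- numbers
  have hP' : (16 : ℝ) ≤ (P : ℝ) := by exact_mod_cast hP
  have hP2 : (64 : ℝ) < (P : ℝ) ^ 2 := by nlinarith
  have hP2' : (0 : ℝ) < (P : ℝ) ^ 2 := by linarith
  obtain ⟨ρ, hρ⟩ : ∃ ρ : ℝ, ρ = 64 / (P : ℝ) ^ 2 := ⟨_, rfl⟩
  have hρ0 : 0 ≤ ρ := by rw [hρ]; positivity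
  have hρ1 : ρ ≤ 1 := by
    rw [hρ, div_le_one hP2']
    linarith
  have hS1 : S ^ 2 ≤ ρ ^ U.card * V ^ 2 := by
    rw [hρ, div_pow, div_mul_eq_mul_div, le_div_iff₀ (by positivity)]
    exact hbia
  have hρk : ρ ^ k ≤ (1 / (4 * (m : ℝ))) ^ 2 := by
    have h5 : 16 * (m : ℝ) ^ 2 * 64 ^ k ≤ ((P : ℝ) ^ 2) ^ k := by exact_mod_cast hm
    rw [hρ, div_pow, div_pow, one_pow, div_le_div_iff₀ (by positivity) (by positivity)]
    calc 64 ^ k * (4 * (m : ℝ)) ^ 2 = 16 * (m : ℝ) ^ 2 * 64 ^ k := by ring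
      _ ≤ ((P : ℝ) ^ 2) ^ k := h5
      _ = 1 * ((P : ℝ) ^ 2) ^ k := (one_mul _).symm
  have hρU : ρ ^ U.card ≤ ((1 / (4 * (m : ℝ))) ^ J1.card) ^ 2 := by
    calc ρ ^ U.card ≤ ρ ^ (k * J1.card) := pow_le_pow_of_le_one hρ0 hρ1 hUk
      _ = (ρ ^ k) ^ J1.card := pow_mul _ _ _
      _ ≤ ((1 / (4 * (m : ℝ))) ^ 2) ^ J1.card := pow_le_pow_left₀ (by positivity) hρk _
      _ = ((1 / (4 * (m : ℝ))) ^ J1.card) ^ 2 := by rw [← pow_mul, ← pow_mul, Nat.mul_comm]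
  apply abs_le_of_sq_le_sq _ (by positivity)
  calc S ^ 2 ≤ ρ ^ U.card * V ^ 2 := hS1
    _ ≤ ((1 / (4 * (m : ℝ))) ^ J1.card) ^ 2 * V ^ 2 := by gcongr
    _ = ((1 / (4 * (m : ℝ))) ^ J1.card * V) ^ 2 := by ring

theorem pf_POS (hB : S_BIA) (hC : S_CNS) (hV : S_VPR) (hP : S_PJN) : S_POS := by
  classical
  intro N m k w0 P s T J X' Y' hk hP16 hPe hm hbox
  rcases X'.eq_empty_or_nonempty with hX | hX
  · rw [hX]; simp
  rcases Y'.eq_empty_or_nonempty with hY | hY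
  · rw [hY]; simp
  obtain ⟨V, hVV⟩ : ∃ V : ℝ, V = (X'.card : ℝ) * Y'.card := ⟨_, rfl⟩
  have hV0 : 0 ≤ V := by rw [hVV]; positivity
  obtain ⟨Fl, hFl⟩ : ∃ Fl, Fl = univ.filter (fun J1 : Finset (Fin m) =>
    J1.card ≤ w0 ∧ Disjoint J1 J) := ⟨_, rfl⟩
  have hD : ∑ x ∈ X', ∑ y ∈ Y', s.D (pt x y) =
      ∑ J1 ∈ Fl, (cf J w0 J1.card : ℝ) * ∑ x ∈ X', ∑ y ∈ Y', ∏ j ∈ J1, s.v j (pt x y) := by
    have h1 : ∀ x ∈ X', ∑ y ∈ Y', s.D (pt x y) = ∑ y ∈ Y', ∑ J1 ∈ Fl,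
        (cf J w0 J1.card : ℝ) * ∏ j ∈ J1, s.v j (pt x y) := by
      intro x hx
      refine sum_congr rfl fun y hy => ?_
      rw [hC N m k w0 s (pt x y) J (hbox.con x hx y hy), hFl]
    rw [sum_congr rfl h1]
    have h2 : ∀ x ∈ X', ∑ y ∈ Y', ∑ J1 ∈ Fl, (cf J w0 J1.card : ℝ) * ∏ j ∈ J1, s.v j (pt x y) =
        ∑ J1 ∈ Fl, ∑ y ∈ Y', (cf J w0 J1.card : ℝ) * ∏ j ∈ J1, s.v j (pt x y) := fun x _ =>
      sum_comm
    rw [sum_congr rfl h2, sum_comm]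
    refine sum_congr rfl fun J1 _ => ?_
    rw [mul_sum]
    exact sum_congr rfl fun x _ => (mul_sum _ _ _).symm
  obtain ⟨c0, hc0⟩ : ∃ c0 : ℝ, c0 = (cf J w0 0 : ℝ) := ⟨_, rfl⟩
  have hc1 : 1 ≤ c0 := by
    rw [hc0]
    have : 1 ≤ cf J w0 0 := by
      unfold cf
      apply card_pos.2
      exact ⟨∅, by simp⟩
    exact_mod_cast this
  have hca : ∀ a : ℕ, (cf J w0 a : ℝ) ≤ c0 := by
    intro a
    rw [hc0]
    have : cf J w0 a ≤ cf J w0 0 := by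
      unfold cf
      apply card_le_card
      intro J0 hJ0
      rw [mem_filter] at hJ0 ⊢
      exact ⟨hJ0.1, by omega⟩
    exact_mod_cast this
  -- lower bound of the terms
  have hterm : ∀ J1 ∈ Fl, c0 * V * ((if J1 = ∅ then 1 else 0) -
      (if J1.Nonempty then (1 / (4 * (m : ℝ))) ^ J1.card else 0)) ≤
      (cf J w0 J1.card : ℝ) * ∑ x ∈ X', ∑ y ∈ Y', ∏ j ∈ J1, s.v j (pt x y) := by
    intro J1 hJ1
    rw [hFl, mem_filter] at hJ1
    rcases J1.eq_empty_or_nonempty with h0 | h0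
    · subst h0
      simp only [if_true, Finset.not_nonempty_empty, if_false, sub_zero, mul_one, prod_empty, card_empty,
        sum_const, nsmul_eq_mul]
      rw [← hc0, hVV]
    · rw [if_neg h0.ne_empty, if_pos h0, zero_sub]
      have h4 := est hB hV hP s T J X' Y' hk hP16 hPe hm hbox hX hY J1 h0 hJ1.2.1 hJ1.2.2
      rw [← hVV] at h4
      have h5 := neg_abs_le (∑ x ∈ X', ∑ y ∈ Y', ∏ j ∈ J1, s.v j (pt x y))
      obtain ⟨E, hE⟩ : ∃ E : ℝ, E = (1 / (4 * (m : ℝ))) ^ J1.card := ⟨_, rfl⟩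
      have hE0 : 0 ≤ E := by rw [hE]; positivity
      rw [← hE] at h4 ⊢
      have h6 : -(E * V) ≤ ∑ x ∈ X', ∑ y ∈ Y', ∏ j ∈ J1, s.v j (pt x y) := by linarith
      have h7 := hca J1.card
      have h8 : (0 : ℝ) ≤ (cf J w0 J1.card : ℝ) := Nat.cast_nonneg _
      calc c0 * V * -E = -(c0 * (E * V)) := by ring
        _ ≤ -((cf J w0 J1.card : ℝ) * (E * V)) := by
            have : (cf J w0 J1.card : ℝ) * (E * V) ≤ c0 * (E * V) :=
              mul_le_mul_of_nonneg_right h7 (mul_nonneg hE0 hV0)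
            linarith
        _ = (cf J w0 J1.card : ℝ) * -(E * V) := by ring
        _ ≤ _ := mul_le_mul_of_nonneg_left h6 h8
  have hsum := sum_le_sum hterm
  rw [← hD, ← mul_sum, sum_sub_distrib] at hsum
  have hone : ∑ J1 ∈ Fl, (if J1 = ∅ then (1 : ℝ) else 0) = 1 := by
    rw [sum_ite_eq' Fl ∅ (fun _ => (1 : ℝ)), if_pos]
    rw [hFl, mem_filter]
    exact ⟨mem_univ _, by simp, disjoint_empty_left _⟩
  have hrest : ∑ J1 ∈ Fl, (if J1.Nonempty then (1 / (4 * (m : ℝ))) ^ J1.card else 0) ≤ 1 / 2 := by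
    refine le_trans ?_ (sum_sets m)
    rw [sum_filter]
    refine sum_le_sum_of_subset_of_nonneg (subset_univ _) fun U _ _ => ?_
    split_ifs <;> positivity
  rw [hone] at hsum
  have hcV : 0 ≤ c0 * V := mul_nonneg (by linarith) hV0
  rw [← hVV]
  have h9 : c0 * V * (1 / 2) ≤ ∑ x ∈ X', ∑ y ∈ Y', s.D (pt x y) := by
    refine le_trans ?_ hsum
    apply mul_le_mul_of_nonneg_left _ hcV
    linarith
  have h10 : V ≤ c0 * V := by nlinarith
  linarith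

end Pool.Agent.H67.CPX
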