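import Pool.Agent.H37.CPX.Targets

/-!
# Cutting planes of any depth: row CV, values on a larger set
-/

namespace Pool.Agent.H67.CPX

open Finset Pool.Agent.H37.CPX

theorem mem_cyl {N : ℕ} {Q : Type} {U : Finset (Fin N)} {u : U → Q} {A : Finset (Fin N → Q)}
    {x : Fin N → Q} : x ∈ cyl U u A ↔ x ∈ A ∧ ∀ i : U, x i = u i := by
  classical
  unfold cyl
  exact mem_filter

theorem cyl_sub {N : ℕ} {Q : Type} (U : Finset (Fin N)) (u : U → Q) (A : Finset (Fin N → Q)) :
    cyl U u A ⊆ A := fun _ hx => (mem_cyl.1 hx).1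

theorem cyl_mono {N : ℕ} {Q : Type} (U : Finset (Fin N)) (u : U → Q) {A B : Finset (Fin N → Q)}
    (h : A ⊆ B) : cyl U u A ⊆ cyl U u B := fun _ hx =>
  mem_cyl.2 ⟨h (mem_cyl.1 hx).1, (mem_cyl.1 hx).2⟩

/-- row CV -/
theorem pf_CV (hJ : S_JEN) (hS : S_SPL) : S_CV := by
  classical
  intro N QX QY _ _ b Tri D Ys T T' A a ka M hb hb2 hTT hFA hka hM h
  choose Ew hEw hEc hEp using h
  refine ⟨univ.biUnion Ew, ?_, ?_, ?_⟩
  · intro x hx
    obtain ⟨w, _, hxw⟩ := mem_biUnion.1 hx
    exact cyl_sub _ _ _ (hEw w hxw)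
  · calc ((univ.biUnion Ew).card : ℝ) ≤ ((∑ w, (Ew w).card : ℕ) : ℝ) := by
          exact_mod_cast card_biUnion_le
      _ = ∑ w, ((Ew w).card : ℝ) := by push_cast; rfl
      _ ≤ ∑ w, a w := sum_le_sum (fun w _ => hEc w)
  · intro B hB
    obtain ⟨hBY, hBF⟩ := hB
    obtain ⟨j1, _, _, j4, _⟩ := hJ N QY b T T' T' B hb hb2 hTT hBF
    have hc : ∀ w' : T' → QY, clF Ys T' (cyl T' w' B) := fun w' =>
      ⟨(cyl_sub _ _ _).trans hBY, j1 w'⟩
    have h2 := fun (w : T' → QX) (w' : T' → QY) => hEp w _ (hc w')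
    choose E2 hE2 hE2c hE2p using h2
    have hq0 : (0 : ℝ) ≤ Real.sqrt (Fintype.card QX) := Real.sqrt_nonneg _
    have hq2 : Real.sqrt (Fintype.card QX) ^ 2 = (Fintype.card QX : ℝ) :=
      Real.sq_sqrt (Nat.cast_nonneg _)
    obtain ⟨_, _, k3, _, _⟩ := hJ N QX _ T T' T' A hq0 hq2 hTT hFA
    refine ⟨(univ.filter (fun w : T' → QX => (cyl T' w A).Nonempty)).biUnion
      (fun w => univ.biUnion (fun w' => E2 w w')), ?_, ?_, ?_⟩
    · intro y hy
      obtain ⟨w, _, hyw⟩ := mem_biUnion.1 hy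
      obtain ⟨w', _, hyw'⟩ := mem_biUnion.1 hyw
      exact cyl_sub _ _ _ (hE2 w w' hyw')
    · have s0 : (0 : ℝ) ≤ Real.sqrt B.card := Real.sqrt_nonneg _
      have one : ∀ w : T' → QX, ((univ.biUnion (fun w' => E2 w w')).card : ℝ) ≤
          ka * (b ^ (T' \ T).card * Real.sqrt B.card) := by
        intro w
        calc ((univ.biUnion (fun w' => E2 w w')).card : ℝ)
            ≤ ((∑ w', (E2 w w').card : ℕ) : ℝ) := by exact_mod_cast card_biUnion_le
          _ = ∑ w', ((E2 w w').card : ℝ) := by push_cast; rfl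
          _ ≤ ∑ w' : T' → QY, ka * Real.sqrt ((cyl T' w' B).card) :=
              sum_le_sum (fun w' _ => hE2c w w')
          _ = ka * ∑ w' : T' → QY, Real.sqrt ((cyl T' w' B).card) := by rw [mul_sum]
          _ ≤ ka * (b ^ (T' \ T).card * Real.sqrt B.card) :=
              mul_le_mul_of_nonneg_left j4 hka
      have nn : (0 : ℝ) ≤ ka * (b ^ (T' \ T).card * Real.sqrt B.card) :=
        mul_nonneg hka (mul_nonneg (pow_nonneg hb _) s0)
      calc (((univ.filter (fun w : T' → QX => (cyl T' w A).Nonempty)).biUnion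
            (fun w => univ.biUnion (fun w' => E2 w w'))).card : ℝ)
          ≤ ((∑ w ∈ univ.filter (fun w : T' → QX => (cyl T' w A).Nonempty),
              (univ.biUnion (fun w' => E2 w w')).card : ℕ) : ℝ) := by
            exact_mod_cast card_biUnion_le
        _ = ∑ w ∈ univ.filter (fun w : T' → QX => (cyl T' w A).Nonempty),
              ((univ.biUnion (fun w' => E2 w w')).card : ℝ) := by push_cast; rfl
        _ ≤ ∑ w ∈ univ.filter (fun w : T' → QX => (cyl T' w A).Nonempty),
              ka * (b ^ (T' \ T).card * Real.sqrt B.card) := sum_le_sum (fun w _ => one w)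
        _ = ((univ.filter (fun w : T' → QX => (cyl T' w A).Nonempty)).card : ℝ) *
              (ka * (b ^ (T' \ T).card * Real.sqrt B.card)) := by
            rw [sum_const, nsmul_eq_mul]
        _ ≤ (Fintype.card QX : ℝ) ^ (T' \ T).card *
              (ka * (b ^ (T' \ T).card * Real.sqrt B.card)) :=
            mul_le_mul_of_nonneg_right k3 nn
        _ = ka * (Fintype.card QX : ℝ) ^ (T' \ T).card * b ^ (T' \ T).card *
              Real.sqrt B.card := by ring
    · intro F hF G hG dE dE' tri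
      have fF : Flat T F := fun x hx x' hx' i hi => hFA x (hF hx) x' (hF hx') i hi
      have fG : Flat T G := fun x hx x' hx' i hi => hBF x (hG hx) x' (hG hx') i hi
      refine hS N QX QY D T T' F G M hTT fF fG hM ?_
      intro w w'
      by_cases hne : (cyl T' w A).Nonempty
      · refine hE2p w w' (cyl T' w F) (cyl_mono _ _ hF) (cyl T' w' G) (cyl_mono _ _ hG) ?_ ?_ ?_
        · rw [disjoint_left]
          intro x hx hxE
          exact disjoint_left.1 dE (cyl_sub _ _ _ hx) (mem_biUnion.2 ⟨w, mem_univ _, hxE⟩)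
        · rw [disjoint_left]
          intro y hy hyE
          exact disjoint_left.1 dE' (cyl_sub _ _ _ hy) (mem_biUnion.2
            ⟨w, mem_filter.2 ⟨mem_univ _, hne⟩, mem_biUnion.2 ⟨w', mem_univ _, hyE⟩⟩)
        · intro x hx y hy
          exact tri x (cyl_sub _ _ _ hx) y (cyl_sub _ _ _ hy)
      · have e : cyl T' w F = ∅ := by
          rw [eq_empty_iff_forall_notMem]
          intro x hx
          exact hne ⟨x, cyl_mono _ _ hF hx⟩
        rw [e]
        simpa using hM

end Pool.Agent.H67.CPX
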